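import Pool.Agent.W838.DC.Zs
import Pool.Agent.W933.DC.Cnt
import Pool.Agent.W227.DC.Final

set_option autoImplicit false

namespace Pool.Agent.W230.DC

open Pool.Agent.W838.DC Pool.Agent.W838.DC.Sys

section

variable {B : Type*} {M : CoxeterMatrix B} {W : Type*} [Group W] {cs : CoxeterSystem M W}
  {σ : Sys (B → ℤ) W}

lemma down_iff (hmu : ∀ x, σ.mu x = cs.length x) {a : B → ℤ} (ha : a ∈ σ.Φ)
    (pa : 0 < σ.ht a) (x : W) :
    cs.length (σ.r a x) < cs.length x ↔ 0 < σ.ht (σ.lab x a) := by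
  rw [← Pool.Agent.W227.DC.R_iff (Pool.Agent.W933.DC.cnt σ) hmu ha pa x]
  exact ⟨fun h => h.2.2, fun h => ⟨ha, pa, h⟩⟩

lemma up_iff (hmu : ∀ x, σ.mu x = cs.length x) {a : B → ℤ} (ha : a ∈ σ.Φ)
    (pa : 0 < σ.ht a) (x : W) :
    cs.length x < cs.length (σ.r a x) ↔ σ.ht (σ.lab x a) < 0 := by
  have h := down_iff hmu ha pa (σ.r a x)
  rw [σ.r_r ha, σ.lab_r_self ha, map_neg] at h
  rw [h]
  omega

lemma lab_self {a : B → ℤ} (ha : a ∈ σ.Φ) (x : W) :
    σ.ht (σ.lab (σ.r a x) a) = - σ.ht (σ.lab x a) := by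
  rw [σ.lab_r_self ha, map_neg]

lemma lab_other {a b : B → ℤ} (ha : a ∈ σ.Φ) (h : σ.ip a b = -1) (x : W) :
    σ.ht (σ.lab (σ.r a x) b) = σ.ht (σ.lab x a) + σ.ht (σ.lab x b) := by
  rw [σ.lab_r_neg ha x h, map_add]

/-- the bottom of a hexagon -/
lemma bot (hmu : ∀ x, σ.mu x = cs.length x) {a b : B → ℤ} (ha : a ∈ σ.Φ) (hb : b ∈ σ.Φ)
    (pa : 0 < σ.ht a) (pb : 0 < σ.ht b) (h : σ.ip a b = -1) (z : W)
    (h1 : σ.ht (σ.lab z a) < 0) (h2 : σ.ht (σ.lab z b) < 0) :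
    cs.length z < cs.length (σ.r a z) ∧
    cs.length (σ.r a z) < cs.length (σ.r b (σ.r a z)) ∧
    cs.length (σ.r b (σ.r a z)) < cs.length (σ.r a (σ.r b (σ.r a z))) ∧
    cs.length z < cs.length (σ.r b z) ∧
    cs.length (σ.r b z) < cs.length (σ.r a (σ.r b z)) ∧
    cs.length (σ.r a (σ.r b z)) < cs.length (σ.r b (σ.r a (σ.r b z))) := by
  have h' : σ.ip b a = -1 := by rw [σ.ip_symm]; exact h
  rw [up_iff hmu ha pa, up_iff hmu hb pb, up_iff hmu ha pa, up_iff hmu hb pb, up_iff hmu ha pa,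
    up_iff hmu hb pb]
  have e1 := lab_other ha h z
  have e2 := lab_other hb h' z
  have e3 := lab_other hb h' (σ.r a z)
  have e4 := lab_other ha h (σ.r b z)
  have e5 := lab_self ha z
  have e6 := lab_self hb z
  refine ⟨h1, ?_, ?_, h2, ?_, ?_⟩ <;> omega

lemma hexr (hmu : ∀ x, σ.mu x = cs.length x) {a b : B → ℤ} (ha : a ∈ σ.Φ) (hb : b ∈ σ.Φ)
    (pa : 0 < σ.ht a) (pb : 0 < σ.ht b) (h : σ.ip a b = -1) (q : W) :
    ∃ z, (q = z ∨ q = σ.r a z ∨ q = σ.r b z ∨ q = σ.r b (σ.r a z) ∨ q = σ.r a (σ.r b z) ∨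
      q = σ.r a (σ.r b (σ.r a z))) ∧ σ.ht (σ.lab z a) < 0 ∧ σ.ht (σ.lab z b) < 0 := by
  have h' : σ.ip b a = -1 := by rw [σ.ip_symm]; exact h
  have n1 := σ.lab_ht_ne q ha
  have n2 := σ.lab_ht_ne q hb
  have n3 := σ.lab_ht_ne q (σ.add_mem ha hb h)
  rw [map_add, map_add] at n3
  have e1 := lab_other ha h q
  have e2 := lab_other hb h' q
  have e3 := lab_other hb h' (σ.r a q)
  have e4 := lab_other ha h (σ.r b q)
  have e5 := lab_self ha q
  have e6 := lab_self hb q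
  have e7 := lab_self hb (σ.r a q)
  have e8 := lab_self ha (σ.r b q)
  have e9 := lab_other ha h (σ.r b (σ.r a q))
  have e10 := lab_self ha (σ.r b (σ.r a q))
  rcases lt_or_gt_of_ne n1 with c1 | c1 <;> rcases lt_or_gt_of_ne n2 with c2 | c2
  · exact ⟨q, Or.inl rfl, c1, c2⟩
  · rcases lt_or_gt_of_ne n3 with c3 | c3
    · refine ⟨σ.r b q, Or.inr (Or.inr (Or.inl ?_)), by omega, by omega⟩
      rw [σ.r_r hb]
    · refine ⟨σ.r a (σ.r b q), Or.inr (Or.inr (Or.inr (Or.inl ?_))), by omega, ?_⟩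
      · rw [σ.r_r ha, σ.r_r hb]
      · omega
  · rcases lt_or_gt_of_ne n3 with c3 | c3
    · refine ⟨σ.r a q, Or.inr (Or.inl ?_), by omega, by omega⟩
      rw [σ.r_r ha]
    · refine ⟨σ.r b (σ.r a q), Or.inr (Or.inr (Or.inr (Or.inr (Or.inl ?_)))), by omega, by omega⟩
      rw [σ.r_r hb, σ.r_r ha]
  · refine ⟨σ.r a (σ.r b (σ.r a q)), Or.inr (Or.inr (Or.inr (Or.inr (Or.inr ?_)))), by omega,
      by omega⟩
    rw [σ.r_r ha, σ.r_r hb, σ.r_r ha]

/-- hexagons for reflections -/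
lemma hexs (hmu : ∀ x, σ.mu x = cs.length x) {a b : B → ℤ} (ha : a ∈ σ.Φ) (hb : b ∈ σ.Φ)
    (pa : 0 < σ.ht a) (pb : 0 < σ.ht b) (h : σ.ip a b = -1) {s t : W}
    (hs : ∀ x, σ.r a x = s * x) (ht : ∀ x, σ.r b x = t * x) (q : W) : Hex cs s t q := by
  obtain ⟨z, hz, z1, z2⟩ := hexr hmu ha hb pa pb h q
  have hb' := bot hmu ha hb pa pb h z z1 z2
  simp only [hs, ht] at hz hb'
  exact ⟨z, hz, hb'⟩

lemma braid_neg {a b : B → ℤ} (ha : a ∈ σ.Φ) (hb : b ∈ σ.Φ) (h : σ.ip a b = -1) (x : W) :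
    σ.r a (σ.r b (σ.r a x)) = σ.r b (σ.r a (σ.r b x)) := by
  have h' : σ.ip b a = -1 := by rw [σ.ip_symm]; exact h
  rw [σ.r_conj_neg ha hb h, σ.r_conj_neg hb ha h', σ.r_r ha, σ.r_r hb, add_comm]

lemma braid_pos {a b : B → ℤ} (ha : a ∈ σ.Φ) (hb : b ∈ σ.Φ) (h : σ.ip a b = 1) (x : W) :
    σ.r a (σ.r b (σ.r a x)) = σ.r (a - b) x ∧ σ.r b (σ.r a (σ.r b x)) = σ.r (a - b) x := by
  have h' : σ.ip b a = 1 := by rw [σ.ip_symm]; exact h
  constructor
  · rw [σ.r_conj_pos ha hb h, σ.r_r ha, ← σ.r_neg (σ.sub_mem ha hb h), neg_sub]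
  · rw [σ.r_conj_pos hb ha h', σ.r_r hb]

end

variable {B W : Type*} {M : CoxeterMatrix B} [Group W]

theorem hex (cs : CoxeterSystem M W) (h : S_SYS cs 1) : S_HEX cs := by
  obtain ⟨σ, -, hmu, -, htt, -, -⟩ := h
  intro s t hs ht hne
  obtain ⟨a, ha, pa, hra⟩ := htt s hs
  obtain ⟨b, hb, pb, hrb⟩ := htt t ht
  have hab : a ≠ b := by
    rintro rfl
    have h1 := (hra 1).symm.trans (hrb 1)
    rw [mul_one, mul_one] at h1
    rw [h1] at hne
    exact hne rfl
  rcases σ.ip_pos ha hb pa pb hab with h1 | h1 | h1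
  · refine ⟨?_, Or.inl fun q => hexs hmu ha hb pa pb h1 hra hrb q⟩
    have := braid_neg ha hb h1 1
    simp only [hra, hrb, mul_one] at this
    rw [← mul_assoc, ← mul_assoc] at this
    exact this
  · exfalso
    have := σ.r_comm ha hb h1 1
    simp only [hra, hrb, mul_one] at this
    exact hne this
  · have hc := σ.sub_mem ha hb h1
    have hbr := fun x => braid_pos ha hb h1 x
    have hrc : ∀ x, σ.r (a - b) x = s * t * s * x := by
      intro x
      rw [← (hbr x).1, hra, hrb, hra, mul_assoc, mul_assoc]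
    refine ⟨?_, ?_⟩
    · have e1 := (hbr 1).1.trans (hbr 1).2.symm
      simp only [hra, hrb, mul_one] at e1
      rw [← mul_assoc, ← mul_assoc] at e1
      exact e1
    · rcases lt_or_gt_of_ne (σ.ht_ne _ hc) with c | c
      · right; left
        have hc' : b - a ∈ σ.Φ := by
          have := σ.neg_mem hc
          rwa [neg_sub] at this
        have hrc' : ∀ x, σ.r (b - a) x = s * t * s * x := by
          intro x
          rw [← neg_sub, σ.r_neg hc, hrc]
        have pc : 0 < σ.ht (b - a) := by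
          rw [map_sub] at c ⊢
          omega
        have hip : σ.ip a (b - a) = -1 := by
          rw [σ.ip_sub_right, h1, σ.ip_self a ha]; norm_num
        exact fun q => hexs hmu ha hc' pa pc hip hra hrc' q
      · right; right
        have hip : σ.ip (a - b) b = -1 := by
          rw [σ.ip_sub, h1, σ.ip_self b hb]; norm_num
        exact fun q => hexs hmu hc hb c pb hip hrc hrb q

theorem comm (cs : CoxeterSystem M W) (h : S_SYS cs 1) : S_COMM cs := by
  obtain ⟨σ, -, hmu, -, htt, -, -⟩ := h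
  intro s t hs ht hst hcm q
  obtain ⟨a, ha, pa, hra⟩ := htt s hs
  obtain ⟨b, hb, pb, hrb⟩ := htt t ht
  have hab : a ≠ b := by
    rintro rfl
    have h1 := (hra 1).symm.trans (hrb 1)
    rw [mul_one, mul_one] at h1
    exact hst h1
  have key : s * t * s = t * s * t → False := by
    intro h1
    apply hst
    rw [hcm, mul_assoc, hs.mul_self, mul_one] at h1
    rw [← hcm, mul_assoc, ht.mul_self, mul_one] at h1
    exact h1.symm
  rcases σ.ip_pos ha hb pa pb hab with h1 | h1 | h1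
  · exfalso
    have := braid_neg ha hb h1 1
    simp only [hra, hrb, mul_one] at this
    rw [← mul_assoc, ← mul_assoc] at this
    exact key this
  · rw [← hra q, ← hrb q, ← hra, up_iff hmu ha pa, up_iff hmu ha pa, σ.lab_r_zero hb]
    rw [σ.ip_symm]
    exact h1
  · exfalso
    have hbr := braid_pos ha hb h1 1
    have e1 := hbr.1.trans hbr.2.symm
    simp only [hra, hrb, mul_one] at e1
    rw [← mul_assoc, ← mul_assoc] at e1
    exact key e1

end Pool.Agent.W230.DC
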