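import Pool.Agent.W838.DC.Stm3

set_option autoImplicit false

namespace Pool.Agent.W230.DC

open Pool.Agent.W838.DC

section form

variable {B : Type*} [Fintype B] [DecidableEq B] {M : CoxeterMatrix B}

lemma cart_symm (i j : B) : cart M i j = cart M j i := by
  unfold cart
  rw [M.symmetric j i]
  by_cases h : i = j
  · rw [if_pos h, if_pos h.symm]
  · rw [if_neg h, if_neg (Ne.symm h)]

lemma ipZ_add (a b c : B → ℤ) : ipZ M (a + b) c = ipZ M a c + ipZ M b c := by
  unfold ipZ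
  simp only [Pi.add_apply, add_mul, Finset.sum_add_distrib]

lemma ipZ_symm (a b : B → ℤ) : ipZ M a b = ipZ M b a := by
  unfold ipZ
  rw [Finset.sum_comm]
  refine Finset.sum_congr rfl fun i _ => Finset.sum_congr rfl fun j _ => ?_
  rw [cart_symm j i]
  ring

lemma ipZ_smul (k : ℤ) (a c : B → ℤ) : ipZ M (k • a) c = k * ipZ M a c := by
  unfold ipZ
  rw [Finset.mul_sum]
  refine Finset.sum_congr rfl fun i _ => ?_
  rw [Finset.mul_sum]
  refine Finset.sum_congr rfl fun j _ => ?_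
  simp only [Pi.smul_apply, smul_eq_mul]
  ring

lemma ipZ_neg (a c : B → ℤ) : ipZ M (-a) c = - ipZ M a c := by
  have := ipZ_smul (M := M) (-1) a c
  simpa using this

lemma ipZ_single (b : B → ℤ) (j : B) :
    ipZ M b (Pi.single j 1) = ∑ i, b i * cart M i j := by
  unfold ipZ
  refine Finset.sum_congr rfl fun i _ => ?_
  rw [Finset.sum_eq_single j]
  · rw [Pi.single_eq_same, mul_one]
  · intro k _ hk
    rw [Pi.single_eq_of_ne hk]
    ring
  · simp

lemma ipZ_self (b : B → ℤ) : ipZ M b b = ∑ j, b j * ipZ M b (Pi.single j 1) := by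
  simp only [ipZ_single]
  unfold ipZ
  rw [Finset.sum_comm]
  refine Finset.sum_congr rfl fun j _ => ?_
  rw [Finset.mul_sum]
  refine Finset.sum_congr rfl fun i _ => ?_
  ring

lemma ipZ_single_self (i : B) : ipZ M (Pi.single i 1) (Pi.single i 1) = 2 := by
  rw [ipZ_single, Finset.sum_eq_single i]
  · rw [Pi.single_eq_same]
    simp [cart]
  · intro k _ hk
    rw [Pi.single_eq_of_ne hk, zero_mul]
  · simp

/-- height -/
def hgt (B : Type*) [Fintype B] : (B → ℤ) →+ ℤ where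
  toFun v := ∑ i, v i
  map_zero' := by simp
  map_add' a b := by simp [Finset.sum_add_distrib]

lemma hgt_apply (v : B → ℤ) : hgt B v = ∑ i, v i := rfl

lemma hgt_nonneg {v : B → ℤ} (h : 0 ≤ v) : 0 ≤ hgt B v :=
  Finset.sum_nonneg fun i _ => h i

lemma hgt_pos {v : B → ℤ} (h : 0 ≤ v) (h0 : v ≠ 0) : 0 < hgt B v := by
  refine lt_of_le_of_ne (hgt_nonneg h) fun h1 => h0 ?_
  rw [hgt_apply] at h1
  have := (Finset.sum_eq_zero_iff_of_nonneg (fun i _ => h i)).1 h1.symm
  funext i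
  exact this i (Finset.mem_univ i)

end form

section rep

variable {B : Type*} [Fintype B] [DecidableEq B] {M : CoxeterMatrix B} {W : Type*} [Group W]
  {cs : CoxeterSystem M W} {g : W →* AddMonoid.End (B → ℤ)}

/-- being a root -/
def Rt (g : W →* AddMonoid.End (B → ℤ)) (a : B → ℤ) : Prop := ∃ w i, a = g w (Pi.single i 1)

lemma g_mul (w w' : W) (v : B → ℤ) : g (w * w') v = g w (g w' v) := by
  rw [map_mul]; rfl

lemma g_one (v : B → ℤ) : g 1 v = v := by
  rw [map_one]; rfl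

lemma g_inv (w : W) (v : B → ℤ) : g w (g w⁻¹ v) = v := by
  rw [← g_mul, mul_inv_cancel, g_one]

lemma g_refl (hg : IsRep cs g) (w : W) (i : B) (v : B → ℤ) :
    g (w * cs.simple i * w⁻¹) v = v - ipZ M v (g w (Pi.single i 1)) • g w (Pi.single i 1) := by
  rw [g_mul, g_mul, hg.simple, map_sub, map_zsmul, g_inv]
  congr 2
  rw [← hg.inv w, g_inv]

lemma Rt_self (hg : IsRep cs g) {a : B → ℤ} (h : Rt g a) : ipZ M a a = 2 := by
  obtain ⟨w, i, rfl⟩ := h
  rw [hg.inv, ipZ_single_self]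

lemma Rt_act {a : B → ℤ} (h : Rt g a) (w : W) : Rt g (g w a) := by
  obtain ⟨w', i, rfl⟩ := h
  exact ⟨w * w', i, by rw [g_mul]⟩

lemma Rt_ne (hg : IsRep cs g) {a : B → ℤ} (h : Rt g a) : a ≠ 0 := by
  rintro rfl
  have h1 := Rt_self hg h
  have h2 := ipZ_smul (M := M) 0 (0 : B → ℤ) 0
  rw [zero_smul, zero_mul] at h2
  omega

lemma Rt_sign (hg : IsRep cs g) {a : B → ℤ} (h : Rt g a) : 0 ≤ a ∨ a ≤ 0 := by
  obtain ⟨w, i, rfl⟩ := h
  rcases hg.sign w i with h | h
  · exact Or.inl h.1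
  · exact Or.inr h.1

lemma Rt_refl (hg : IsRep cs g) {a b : B → ℤ} (ha : Rt g a) (hb : Rt g b) :
    Rt g (b - ipZ M b a • a) := by
  obtain ⟨w, i, rfl⟩ := ha
  rw [← g_refl hg]
  exact Rt_act hb _

lemma Rt_neg (hg : IsRep cs g) {a : B → ℤ} (ha : Rt g a) : Rt g (-a) := by
  have := Rt_refl hg ha ha
  rw [Rt_self hg ha] at this
  have h2 : a - (2 : ℤ) • a = -a := by rw [two_smul]; abel
  rwa [h2] at this

lemma Rt_pos (hg : IsRep cs g) {a : B → ℤ} (ha : Rt g a) : 0 < hgt B a ↔ 0 ≤ a := by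
  constructor
  · intro h
    rcases Rt_sign hg ha with h1 | h1
    · exact h1
    · have h2 : 0 ≤ -a := neg_nonneg.2 h1
      have h3 := hgt_nonneg h2
      rw [map_neg] at h3
      omega
  · intro h
    exact hgt_pos h (Rt_ne hg ha)

lemma Rt_negv (hg : IsRep cs g) {a : B → ℤ} (ha : Rt g a) : hgt B a < 0 ↔ a ≤ 0 := by
  have h := Rt_pos hg (Rt_neg hg ha)
  rw [map_neg, neg_nonneg] at h
  rw [← h]
  omega

open Classical in
/-- the reflection of a root -/
noncomputable def tt (cs : CoxeterSystem M W) (g : W →* AddMonoid.End (B → ℤ)) (a : B → ℤ) : W :=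
  if h : Rt g a then h.choose * cs.simple h.choose_spec.choose * h.choose⁻¹ else 1

lemma tt_spec (hg : IsRep cs g) {a : B → ℤ} (ha : Rt g a) :
    cs.IsReflection (tt cs g a) ∧ ∀ v, g (tt cs g a) v = v - ipZ M v a • a := by
  unfold tt
  rw [dif_pos ha]
  refine ⟨⟨_, _, rfl⟩, fun v => ?_⟩
  rw [g_refl hg, ← ha.choose_spec.choose_spec]

lemma tt_eq (hg : IsRep cs g) (w : W) (i : B) :
    tt cs g (g w (Pi.single i 1)) = w * cs.simple i * w⁻¹ := by
  refine hg.inj _ _ fun v => ?_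
  rw [(tt_spec hg ⟨w, i, rfl⟩).2, g_refl hg]

lemma tt_neg (hg : IsRep cs g) {a : B → ℤ} (ha : Rt g a) : tt cs g (-a) = tt cs g a := by
  refine hg.inj _ _ fun v => ?_
  rw [(tt_spec hg (Rt_neg hg ha)).2, (tt_spec hg ha).2, ipZ_symm v (-a), ipZ_neg, ipZ_symm a v,
    smul_neg, neg_smul, neg_neg]

lemma tt_inv (hg : IsRep cs g) {a : B → ℤ} (ha : Rt g a) : (tt cs g a)⁻¹ = tt cs g a := by
  obtain ⟨w, i, rfl⟩ := ha
  rw [tt_eq hg]
  have : (cs.simple i)⁻¹ = cs.simple i := by simp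
  rw [mul_inv_rev, mul_inv_rev, inv_inv, this, mul_assoc]

lemma tt_mul (hg : IsRep cs g) {a : B → ℤ} (ha : Rt g a) : tt cs g a * tt cs g a = 1 := by
  conv_lhs => rw [← tt_inv hg ha]
  rw [tt_inv hg ha]
  have := mul_inv_cancel (tt cs g a)
  rwa [tt_inv hg ha] at this

end rep

variable {B W : Type*} [Fintype B] [DecidableEq B] {M : CoxeterMatrix B} [Group W] [Finite W]

lemma Rt_fin (g : W →* AddMonoid.End (B → ℤ)) : {a | Rt g a}.Finite := by
  have h : {a | Rt g a} = Set.range (fun z : W × B => g z.1 (Pi.single z.2 1)) := by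
    ext a
    constructor
    · rintro ⟨w, i, rfl⟩
      exact ⟨(w, i), rfl⟩
    · rintro ⟨⟨w, i⟩, rfl⟩
      exact ⟨w, i, rfl⟩
  rw [h]
  exact Set.finite_range _

/-- the labels -/
def lb (g : W →* AddMonoid.End (B → ℤ)) (x : W) : (B → ℤ) →+ (B → ℤ) where
  toFun a := -(g x⁻¹ a)
  map_zero' := by simp
  map_add' a b := by rw [map_add, neg_add]

lemma hgt_lb (g : W →* AddMonoid.End (B → ℤ)) (x : W) (a : B → ℤ) :
    hgt B (lb g x a) = - hgt B (g x⁻¹ a) := by
  change hgt B (-(g x⁻¹ a)) = _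
  rw [map_neg]

theorem sys (cs : CoxeterSystem M W) (hsl : ∀ i j, i ≠ j → M i j = 2 ∨ M i j = 3)
    (h1 : S_SYS1 cs) (h2 : S_SYS2 cs) (h3 : S_SYS3 cs) (h4 : S_SYS4 cs) (u : W) :
    S_SYS cs u := by
  classical
  obtain ⟨g, hg⟩ := h1
  have hmem : ∀ a, a ∈ (Rt_fin g).toFinset ↔ Rt g a := fun a => by
    rw [Set.Finite.mem_toFinset]; rfl
  have hneg := fun (x : W) (a : B → ℤ) => hgt_lb g x a
  refine ⟨{
    Φ := (Rt_fin g).toFinset
    ip := ipZ M
    ip_add := ipZ_add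
    ip_symm := ipZ_symm
    ip_self := fun a ha => Rt_self hg ((hmem a).1 ha)
    ip_bd := ?_
    refl_mem := fun a ha b hb => (hmem _).2 (Rt_refl hg ((hmem a).1 ha) ((hmem b).1 hb))
    ht := hgt B
    ht_ne := ?_
    S := Finset.univ.image (fun i : B => (Pi.single i 1 : B → ℤ))
    S_sub := ?_
    S_ex := ?_
    lab := lb g
    lab_mem := ?_
    lab_ip := ?_
    r := fun a x => tt cs g a * x
    lab_r := ?_
    ext := ?_
    mu := cs.length
    mu_card := ?_
    P := BLe cs u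
    P_down := ?_ }, fun x => Iff.rfl, fun x => rfl, ?_, ?_, ?_, ?_⟩
  · intro a ha b hb hab hab'
    obtain ⟨w, i, rfl⟩ := (hmem a).1 ha
    obtain ⟨w', j, rfl⟩ := (hmem b).1 hb
    exact h2 g hg w w' i j hab hab'
  · intro a ha
    have ha := (hmem a).1 ha
    rcases Rt_sign hg ha with h | h
    · exact ((Rt_pos hg ha).2 h).ne'
    · exact ((Rt_negv hg ha).2 h).ne
  · intro s hs
    obtain ⟨i, -, rfl⟩ := Finset.mem_image.1 hs
    refine ⟨(hmem _).2 ⟨1, i, by rw [g_one]⟩, ?_⟩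
    rw [hgt_apply]
    simp
  · intro b hb hpos
    have hb := (hmem b).1 hb
    have hb0 := (Rt_pos hg hb).1 hpos
    have h5 : ∃ j, 0 < b j * ipZ M b (Pi.single j 1) := by
      by_contra hcon
      push Not at hcon
      have := Finset.sum_nonpos (s := Finset.univ) fun j _ => hcon j
      rw [← ipZ_self, Rt_self hg hb] at this
      omega
    obtain ⟨j, hj⟩ := h5
    have h6 : 0 < ipZ M b (Pi.single j 1) := by
      by_contra hcon
      push Not at hcon
      have h7 : 0 ≤ b j := hb0 j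
      have := mul_nonpos_of_nonneg_of_nonpos h7 hcon
      exact absurd hj (not_lt.2 this)
    by_cases hbj : b = Pi.single j 1
    · exact Or.inl (Finset.mem_image.2 ⟨j, Finset.mem_univ _, hbj.symm⟩)
    · right
      refine ⟨Pi.single j 1, Finset.mem_image.2 ⟨j, Finset.mem_univ _, rfl⟩, ?_⟩
      have hbj' : b ≠ -Pi.single j 1 := by
        intro h
        have h7 := hb0 j
        rw [h] at h7
        simp at h7
      obtain ⟨w, i, rfl⟩ := hb
      have h8 := h2 g hg w 1 i j (by rw [g_one]; exact hbj) (by rw [g_one]; exact hbj')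
      rw [g_one] at h8
      omega
  · intro x a ha
    exact (hmem _).2 (Rt_neg hg (Rt_act ((hmem a).1 ha) _))
  · intro x a b
    change ipZ M (-(g x⁻¹ a)) (-(g x⁻¹ b)) = _
    rw [ipZ_neg, ipZ_symm, ipZ_neg, neg_neg, ipZ_symm, hg.inv]
  · intro a ha x b
    change -(g (tt cs g a * x)⁻¹ b) = -(g x⁻¹ (b - ipZ M b a • a))
    rw [mul_inv_rev, tt_inv hg ((hmem a).1 ha), g_mul, (tt_spec hg ((hmem a).1 ha)).2]
  · intro x y h
    have h5 : x⁻¹ = y⁻¹ := by
      refine hg.inj _ _ fun v => ?_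
      have h6 : -(g x⁻¹ v) = -(g y⁻¹ v) := h v
      exact neg_injective h6
    exact inv_injective h5
  · intro x
    rw [← h4 g hg x, ← Set.ncard_coe_finset]
    congr 1
    ext a
    rw [Finset.mem_coe, Finset.mem_filter, hmem, hneg]
    constructor
    · rintro ⟨ha, h5, h6⟩
      have ha' : Rt g a := ha
      refine ⟨ha', (Rt_pos hg ha').2 h5, ?_⟩
      have := (Rt_negv hg (Rt_act ha' x⁻¹)).2 h6
      omega
    · rintro ⟨ha, h5, h6⟩
      refine ⟨ha, (Rt_pos hg ha).1 h5, (Rt_negv hg (Rt_act ha x⁻¹)).1 (by omega)⟩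
  · intro a ha x h5 h6 hP
    have ha := (hmem a).1 ha
    rw [hneg] at h6
    have h7 : 0 ≤ g x⁻¹ a := (Rt_pos hg (Rt_act ha x⁻¹)).1 (by omega)
    have h8 : g (tt cs g a * x)⁻¹ a ≤ 0 := by
      rw [mul_inv_rev, tt_inv hg ha, g_mul, (tt_spec hg ha).2, Rt_self hg ha]
      have h2 : a - (2 : ℤ) • a = -a := by rw [two_smul]; abel
      rw [h2, map_neg]
      exact neg_nonpos.2 h7
    have h9 : 0 ≤ a := (Rt_pos hg ha).1 h5
    have h10 : tt cs g a * (tt cs g a * x) = x := by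
      rw [← mul_assoc, tt_mul hg ha, one_mul]
    have h11 := (tt_spec hg ha).1
    have h12 : cs.length (tt cs g a * (tt cs g a * x)) < cs.length (tt cs g a * x) := by
      obtain ⟨w, i, rfl⟩ := ha
      have := h3 g hg w i _ h9 h8
      rwa [← tt_eq hg] at this
    rw [h10] at h12
    exact Relation.ReflTransGen.tail hP ⟨_, h11, rfl, h12⟩
  · intro a ha
    exact ⟨tt cs g a, (tt_spec hg ((hmem a).1 ha)).1, fun x => rfl⟩
  · rintro t ⟨w, i, rfl⟩
    have hr : Rt g (g w (Pi.single i 1)) := ⟨w, i, rfl⟩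
    rcases Rt_sign hg hr with h | h
    · refine ⟨g w (Pi.single i 1), (hmem _).2 hr, (Rt_pos hg hr).2 h, fun x => ?_⟩
      change tt cs g _ * x = _
      rw [tt_eq hg]
    · refine ⟨-g w (Pi.single i 1), (hmem _).2 (Rt_neg hg hr),
        (Rt_pos hg (Rt_neg hg hr)).2 (neg_nonneg.2 h), fun x => ?_⟩
      change tt cs g _ * x = _
      rw [tt_neg hg hr, tt_eq hg]
  · intro a ha
    obtain ⟨i, -, rfl⟩ := Finset.mem_image.1 ha
    refine ⟨i, fun x => ?_⟩
    change tt cs g (Pi.single i 1) * x = _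
    have := tt_eq hg 1 i
    rw [g_one, one_mul, inv_one, mul_one] at this
    rw [this]
  · intro i
    refine ⟨Pi.single i 1, Finset.mem_image.2 ⟨i, Finset.mem_univ _, rfl⟩, fun x => ?_⟩
    change tt cs g (Pi.single i 1) * x = _
    have := tt_eq hg 1 i
    rw [g_one, one_mul, inv_one, mul_one] at this
    rw [this]

end Pool.Agent.W230.DC
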